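import Pool.Agent.Y557.U.AbK
import Pool.Agent.Y557.NF.Mason

/-!
# The abc inequality for almost all points of all split thin sets over a number field at once

`K` is a number field of degree `d`. Consider all rational maps
`f : t ↦ (P 0 (t) : P 1 (t) : P 2 (t))` of degree `D` from the projective line to the line
`a + b + c = 0`, given by polynomials of height at most `η log X`, all of whose `q` points over the
three points with `abc = 0` are `K`-rational, together with all finite sets `T` of primes of small
norm. The points in the images of the projective line over `K`, of all heights (thin sets, if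
`D ≥ 2`) are ordered by their radical without the primes of `T`. One exceptional set, smaller by a
power of `X` than the set of the points with `rad_T ≤ log X` in each single image, serves all `f` and
`T`: all other points satisfy `h < M rad_T + c` for every `M > D / q`, where
`D / q ≤ 1 - 2 / q < 1`.
-/

set_option autoImplicit false

namespace Pool.Agent.Results.MP_a793bb_nt.AllThinSetsAtOnce

open NumberField IsDedekindDomain Polynomial

open Classical in
/-- the number of the different points of the projective line over `K` which the map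
`t ↦ (P 0 (t) : P 1 (t) : P 2 (t))` of degree `D` sends to points with a coordinate zero (infinity is
one of them if some `P i` has degree less than `D`) -/
noncomputable def zeros {K : Type} [Field K] (D : ℕ) (P : Fin 3 → K[X]) : ℕ :=
  (∏ i, P i).roots.toFinset.card + if ∃ i, (P i).natDegree < D then 1 else 0

variable {K : Type} [Field K] [NumberField K]

/-- the radical without the primes of `T`: the sum of `log N(v) / d` over the primes `v ∉ T` at which
the valuations of the coordinates are not all equal -/
noncomputable def rad (T : Set (HeightOneSpectrum (𝓞 K))) (x : Fin 3 → K) : ℝ :=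
  (∑ᶠ v ∈ {v : HeightOneSpectrum (𝓞 K) | v ∉ T ∧
      ∃ i j, v.valuation K (x i) ≠ v.valuation K (x j)},
    Real.log (Ideal.absNorm v.asIdeal : ℝ)) / (Module.finrank ℚ K : ℝ)

/-- the height `h` of the problem (the height of Mathlib is relative to `K`) -/
noncomputable def height {ι : Type} [Fintype ι] (x : ι → K) : ℝ :=
  Height.logHeight x / (Module.finrank ℚ K : ℝ)

/-- a finite set `T` of primes and a map `t ↦ (P 0 (t) : P 1 (t) : P 2 (t))` to the line
`a + b + c = 0`, given by nonzero coprime polynomials of maximal degree `D`, all of whose zeros are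
in `K`; `q` is the number of the points over the points with `abc = 0`; `1 / d` times the logarithm
of the product of the norms of the primes in `T`, and the height of the vector of all coefficients
of the `P i`, are at most `B` -/
structure Data (D q : ℕ) (B : ℝ) (T : Finset (HeightOneSpectrum (𝓞 K))) (P : Fin 3 → K[X]) :
    Prop where
  ne_zero : ∀ i, P i ≠ 0
  sum_zero : P 0 + P 1 + P 2 = 0
  coprime : IsCoprime (P 0) (P 1)
  splits : ∀ i, (P i).Splits
  degree_le : ∀ i, (P i).natDegree ≤ D
  degree_eq : ∃ i, (P i).natDegree = D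
  points : zeros D P = q
  primes : (∑ v ∈ T, Real.log (Ideal.absNorm v.asIdeal : ℝ)) / (Module.finrank ℚ K : ℝ) ≤ B
  height_le : height (fun i : Fin 3 × Fin (D + 1) => (P i.1).coeff i.2) ≤ B

/-- the coordinates of the image of `t`; `none` is infinity -/
def coordinates (D : ℕ) (P : Fin 3 → K[X]) : Option K → Fin 3 → K
  | some t => fun i => (P i).eval t
  | none => fun i => (P i).coeff D

/-- the images of the points of the projective line over `K`, with nonzero coordinates and
`rad_T ≤ log X`; there is no condition on the height -/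
def Points (D : ℕ) (T : Set (HeightOneSpectrum (𝓞 K))) (P : Fin 3 → K[X]) (X : ℝ) :
    Set (Projectivization K (Fin 3 → K)) :=
  {Q | ∃ (t : Option K) (hx : coordinates D P t ≠ 0),
    Q = Projectivization.mk K (coordinates D P t) hx ∧ (∀ i, coordinates D P t i ≠ 0) ∧
    rad T (coordinates D P t) ≤ Real.log X}

/-- the union of these sets over all data of height at most `η log X` -/
def AllPoints (K : Type) [Field K] [NumberField K] (D q : ℕ) (η X : ℝ) :
    Set (Projectivization K (Fin 3 → K)) :=
  {Q | ∃ (T : Finset (HeightOneSpectrum (𝓞 K))) (P : Fin 3 → K[X]),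
    Data D q (η * Real.log X) T P ∧ Q ∈ Points D (T : Set _) P X}

/-- the points `Q` for which there are data of height at most `η log X` such that `Q` is in
`Points` and the inequality `h < M rad_T + c` fails at `Q` -/
def Exceptions (K : Type) [Field K] [NumberField K] (D q : ℕ) (η M c X : ℝ) :
    Set (Projectivization K (Fin 3 → K)) :=
  {Q | ∃ (T : Finset (HeightOneSpectrum (𝓞 K))) (P : Fin 3 → K[X]),
    Data D q (η * Real.log X) T P ∧
    ∃ (t : Option K) (hx : coordinates D P t ≠ 0),
      Q = Projectivization.mk K (coordinates D P t) hx ∧ (∀ i, coordinates D P t i ≠ 0) ∧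
      rad (T : Set _) (coordinates D P t) ≤ Real.log X ∧
      M * rad (T : Set _) (coordinates D P t) + c ≤ height (coordinates D P t)}

open Pool.Agent.Y557.U

theorem coordinates_eq (D : ℕ) (P : Fin 3 → K[X]) : coordinates D P = co D P := by
  funext t
  cases t <;> rfl

theorem rad_eq (T : Set (HeightOneSpectrum (𝓞 K))) (x : Fin 3 → K) : rS T x = rad T x := rfl

theorem data_ck {D q : ℕ} {B : ℝ} {T : Finset (HeightOneSpectrum (𝓞 K))} {P : Fin 3 → K[X]}
    (h : Data D q B T P) : Ck 3 D q B T P := by
  refine ⟨h.ne_zero, h.splits, ?_, h.degree_le, h.degree_eq, h.points, h.primes, h.height_le⟩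
  obtain ⟨a, b, hab⟩ := h.coprime
  refine ⟨![a, b, 0], ?_⟩
  rw [Fin.sum_univ_three]
  simp only [Matrix.cons_val_zero, Matrix.cons_val_one, Matrix.cons_val, zero_mul, add_zero]
  exact hab

theorem points_eq (D : ℕ) (T : Set (HeightOneSpectrum (𝓞 K))) (P : Fin 3 → K[X]) (X : ℝ) :
    Points D T P X = Pk D T P X := by
  unfold Points Pk
  simp only [rad_eq, coordinates_eq]

theorem allPoints_sub (D q : ℕ) (η X : ℝ) : AllPoints K D q η X ⊆ APk K 3 D q η X := by
  rintro Q ⟨T, P, hP, hQ⟩
  rw [points_eq] at hQ
  exact ⟨T, P, data_ck hP, hQ⟩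

theorem exceptions_sub (D q : ℕ) (η M c X : ℝ) :
    Exceptions K D q η M c X ⊆ EXk K 3 D q η M c X := by
  rintro Q ⟨T, P, hP, t, hx, h⟩
  simp only [coordinates_eq] at h hx
  exact ⟨T, P, data_ck hP, t, hx, h⟩

/-- Let `K` be a number field of degree `d`, `D ≥ 1` and `q ≥ 3`.
(0) `q ≥ D + 2` for all data.
(1) For every `δ > 0` there is `η > 0` such that the number of the points with nonzero coordinates
and `rad_T ≤ log X`, of whatever height, for all data of height at most `η log X` together is at
most `C X ^ (2 d / q + δ)`, and for each single one at least `X ^ (2 d / q - δ)` for large `X`.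
(2) For every `M > D / q`, for example `M = 1`, there are `η, ν > 0` such that for every real `c` at
most `C X ^ (2 d / q - ν)` of all these points, for large `X` at most `X ^ (-ν)` times the number of
those for each single one of the data, violate the inequality `h < M rad_T + c`.
(3) For all data of height at most `B`, all points with nonzero coordinates satisfy
`D rad_T ≤ q h + C (B + 1)`. -/
theorem result (K : Type) [Field K] [NumberField K] (D q : ℕ) (hD : 1 ≤ D) (hq : 3 ≤ q) :
    (∀ (B : ℝ) (T : Finset (HeightOneSpectrum (𝓞 K))) (P : Fin 3 → K[X]), Data D q B T P →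
      D + 2 ≤ q) ∧
    (∀ δ : ℝ, 0 < δ → ∃ η : ℝ, 0 < η ∧
      (∃ C : ℝ, ∀ X : ℝ, 1 ≤ X → (AllPoints K D q η X).Finite ∧
        ((AllPoints K D q η X).ncard : ℝ) ≤
          C * X ^ (2 * (Module.finrank ℚ K : ℝ) / (q : ℝ) + δ)) ∧
      ∃ X₀ : ℝ, ∀ X : ℝ, X₀ ≤ X → ∀ (T : Finset (HeightOneSpectrum (𝓞 K))) (P : Fin 3 → K[X]),
        Data D q (η * Real.log X) T P →
        X ^ (2 * (Module.finrank ℚ K : ℝ) / (q : ℝ) - δ) ≤ ((Points D (T : Set _) P X).ncard : ℝ)) ∧
    (∀ M : ℝ, (D : ℝ) / q < M → ∃ η ν : ℝ, 0 < η ∧ 0 < ν ∧ ∀ c : ℝ,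
      (∃ C : ℝ, ∀ X : ℝ, 1 ≤ X → (Exceptions K D q η M c X).Finite ∧
        ((Exceptions K D q η M c X).ncard : ℝ) ≤
          C * X ^ (2 * (Module.finrank ℚ K : ℝ) / (q : ℝ) - ν)) ∧
      ∃ X₀ : ℝ, ∀ X : ℝ, X₀ ≤ X → ∀ (T : Finset (HeightOneSpectrum (𝓞 K))) (P : Fin 3 → K[X]),
        Data D q (η * Real.log X) T P →
        ((Exceptions K D q η M c X).ncard : ℝ) ≤
          X ^ (-ν) * ((Points D (T : Set _) P X).ncard : ℝ)) ∧
    ∃ C : ℝ, ∀ (B : ℝ) (T : Finset (HeightOneSpectrum (𝓞 K))) (P : Fin 3 → K[X]),
      Data D q B T P → ∀ t : Option K, (∀ i, coordinates D P t i ≠ 0) →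
      D * rad (T : Set _) (coordinates D P t) ≤ q * height (coordinates D P t) + C * (B + 1) := by
  obtain ⟨h1, h2, C3, -, h3⟩ := abk_main K 3 D q hD hq
  refine ⟨fun B T P hP => ?_, fun δ hδ => ?_, fun M hM => ?_, ?_⟩
  · have h4 := Pool.Agent.Y557.NF.mason_q hP.ne_zero hP.splits hP.sum_zero hP.coprime hP.degree_le
      hP.degree_eq hD
    refine h4.trans ?_
    rw [← hP.points]
    unfold zeros Pool.Agent.Y557.NF.nz
    refine add_le_add (le_of_eq (congrArg Finset.card (Finset.ext fun r => ?_))) ?_
    · exact (@Multiset.mem_toFinset _ (_) _ _).trans (@Multiset.mem_toFinset _ (_) _ _).symm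
    · by_cases h5 : Pool.Agent.Y557.NF.Unequal P
      · rw [if_pos h5]
        obtain ⟨a, b, hab⟩ := h5
        rw [if_pos ⟨a, lt_of_lt_of_le hab (hP.degree_le b)⟩]
      · rw [if_neg h5]
        exact Nat.zero_le _
  · obtain ⟨η, hη, ⟨C, hC⟩, X0, hX0⟩ := h1 δ hδ
    refine ⟨η, hη, ⟨C, fun X hX => ?_⟩, X0, fun X hX T P hP => ?_⟩
    · obtain ⟨h4, h5⟩ := hC X hX
      have h6 := allPoints_sub (K := K) D q η X
      refine ⟨h4.subset h6, le_trans ?_ h5⟩
      exact_mod_cast Set.ncard_le_ncard h6 h4
    · rw [points_eq]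
      exact hX0 X hX T P (data_ck hP)
  · obtain ⟨η, ν, hη, hν, h4⟩ := h2 M hM
    refine ⟨η, ν, hη, hν, fun c => ?_⟩
    obtain ⟨⟨C, hC⟩, X0, hX0⟩ := h4 c
    refine ⟨⟨C, fun X hX => ?_⟩, max 1 X0, fun X hX T P hP => ?_⟩
    · obtain ⟨h5, h6⟩ := hC X hX
      have h7 := exceptions_sub (K := K) D q η M c X
      refine ⟨h5.subset h7, le_trans ?_ h6⟩
      exact_mod_cast Set.ncard_le_ncard h7 h5
    · have k1 : 1 ≤ X := (le_max_left _ _).trans hX
      obtain ⟨h5, -⟩ := hC X k1
      have h7 := exceptions_sub (K := K) D q η M c X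
      rw [points_eq]
      refine le_trans ?_ (hX0 X ((le_max_right _ _).trans hX) T P (data_ck hP))
      exact_mod_cast Set.ncard_le_ncard h7 h5
  · refine ⟨C3, fun B T P hP t hne => ?_⟩
    rw [coordinates_eq] at hne ⊢
    have hx : co D P t ≠ 0 := fun h => hne 0 (congrFun h 0)
    exact h3 B T P (data_ck hP) t hx hne

end Pool.Agent.Results.MP_a793bb_nt.AllThinSetsAtOnce
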