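import Pool.Agent.Y728.AK.Final

/-!
# The abc inequality for almost all points over a number field, of all heights

`K` is a number field of degree `d` and `T` a finite set of primes of `K`. The points
`P = (a : b : c)` over `K` with `a + b + c = 0` and `abc ≠ 0` are ordered by their radical; there
is no restriction on their heights. For every `M > 1/3` all but a power-saving proportion of them
satisfy `h(P) < M rad_T(P)`; for `M ≤ 1/3` none does.

Points of height `O(log X)` are treated by the method of Browning, Lichtman and Teräväinen in the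
form of the library files `W108/AK`, those of larger height by linear forms in two logarithms at
all places of `K` (interpolation determinants), in the way of the files `Y911/AA` for `K = ℚ`: if
all primes of a point are small, the exponents of most of them are nearly equal; if not, quotients
of the coordinates are, up to a small factor, `E`-th powers of numbers with few prime factors, and
products of many such relations and the sunflower lemma bound the number of the points.
-/

set_option autoImplicit false

namespace Pool.Agent.Results.MP_a793bb_nt.AlmostAllPoints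

open NumberField IsDedekindDomain

variable {K : Type} [Field K] [NumberField K]

/-- the height `h(P)` of the point `P` with coordinates `x` -/
noncomputable def height (x : Fin 3 → K) : ℝ :=
  (∑ w : InfinitePlace K, (w.mult : ℝ) * Real.log (max (w (x 0)) (max (w (x 1)) (w (x 2)))) +
    ∑ᶠ v : HeightOneSpectrum (𝓞 K), Real.log
      (max (FinitePlace.mk v (x 0)) (max (FinitePlace.mk v (x 1)) (FinitePlace.mk v (x 2))))) /
    (Module.finrank ℚ K : ℝ)

/-- the radical of the point `P` with coordinates `x`, without the primes of `T`: the sum of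
`log N(v) / d` over the primes `v ∉ T` at which the valuations of the coordinates are not all
equal -/
noncomputable def rad (T : Set (HeightOneSpectrum (𝓞 K))) (x : Fin 3 → K) : ℝ :=
  (∑ᶠ (v : HeightOneSpectrum (𝓞 K)) (_ : v ∉ T ∧
      ¬ (FinitePlace.mk v (x 0) = FinitePlace.mk v (x 1) ∧
        FinitePlace.mk v (x 1) = FinitePlace.mk v (x 2))),
    Real.log (Ideal.absNorm v.asIdeal : ℝ)) / (Module.finrank ℚ K : ℝ)

/-- the points `P = (a : b : c)` over `K` with `a + b + c = 0`, `abc ≠ 0` and
`exp rad_T(P) ≤ X`; there is no condition on the height of `P` -/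
def Points (T : Set (HeightOneSpectrum (𝓞 K))) (X : ℝ) :
    Set (Projectivization K (Fin 3 → K)) :=
  {P | ∃ (x : Fin 3 → K) (hx : x ≠ 0), P = Projectivization.mk K x hx ∧ x 0 + x 1 + x 2 = 0 ∧
    x 0 * x 1 * x 2 ≠ 0 ∧ Real.exp (rad T x) ≤ X}

/-- those among them with `h(P) ≥ M rad_T(P)`: the points violating `h(P) < M rad_T(P)` -/
def Exceptions (T : Set (HeightOneSpectrum (𝓞 K))) (M X : ℝ) :
    Set (Projectivization K (Fin 3 → K)) :=
  {P | ∃ (x : Fin 3 → K) (hx : x ≠ 0), P = Projectivization.mk K x hx ∧ x 0 + x 1 + x 2 = 0 ∧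
    x 0 * x 1 * x 2 ≠ 0 ∧ Real.exp (rad T x) ≤ X ∧ M * rad T x ≤ height x}

/-- **The abc inequality holds for almost all points over any number field.** Let `K` be a number
field of degree `d` and `T` a finite set of primes of `K`.
(1) The number of all points `(a : b : c)` over `K` with `a + b + c = 0`, `abc ≠ 0` and
`exp rad_T ≤ X`, of whatever height, is `X ^ (2 d / 3 + o(1))`.
(2) For every `M > 1/3` at most `C X ^ (2 d / 3 - ν)` of them, a proportion `≤ X ^ (-ν)` for large
`X`, violate the inequality `h < M rad_T`.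
(3) For `M ≤ 1/3` all of them do. -/
theorem result : ∀ (K : Type) [Field K] [NumberField K] (T : Set (HeightOneSpectrum (𝓞 K))),
    T.Finite →
    (∀ δ : ℝ, 0 < δ →
      (∃ C : ℝ, ∀ X : ℝ, 1 ≤ X → (Points T X).Finite ∧
        ((Points T X).ncard : ℝ) ≤ C * X ^ ((Module.finrank ℚ K : ℝ) * (2 / 3) + δ)) ∧
      ∃ X₀ : ℝ, ∀ X : ℝ, X₀ ≤ X →
        X ^ ((Module.finrank ℚ K : ℝ) * (2 / 3) - δ) ≤ ((Points T X).ncard : ℝ)) ∧
    (∀ M : ℝ, 1 / 3 < M →
      (∃ ν C : ℝ, 0 < ν ∧ 0 < C ∧ ∀ X : ℝ, 1 ≤ X →
        ((Exceptions T M X).ncard : ℝ) ≤ C * X ^ ((Module.finrank ℚ K : ℝ) * (2 / 3) - ν)) ∧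
      ∃ ν X₀ : ℝ, 0 < ν ∧ ∀ X : ℝ, X₀ ≤ X →
        ((Exceptions T M X).ncard : ℝ) ≤ X ^ (-ν) * ((Points T X).ncard : ℝ)) ∧
    (∀ M : ℝ, M ≤ 1 / 3 → ∀ X : ℝ, Exceptions T M X = Points T X) := by
  intro K _ _ T hT
  refine ⟨fun δ hδ => ⟨Pool.Agent.Y728.radical_count K T hT δ hδ,
    Pool.Agent.Y728.AK.points_lower K T hT δ hδ⟩, fun M hM => ⟨?_, ?_⟩, fun M hM X => ?_⟩
  · exact Pool.Agent.Y728.AK.exc_count K (Pool.Agent.Y728.AK.almost_allK K) T hT hM
  · exact Pool.Agent.Y728.AK.exc_ratio K (Pool.Agent.Y728.AK.almost_allK K) T hT hM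
  · exact Pool.Agent.Y728.AK.exc_small T hT hM X

end Pool.Agent.Results.MP_a793bb_nt.AlmostAllPoints
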