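import Pool.Agent.Y668.EX.Main

/-!
# The exact size of the exceptional set of the abc inequality over a number field, near the threshold

`K` is a number field of degree `d` and `T` a finite set of primes of `K`. The points
`P = (a : b : c)` over `K` with `a + b + c = 0` and `abc ≠ 0` are ordered by their radical. For
`M ≤ 1/3` all of them have `h(P) ≥ M rad_T(P)`; for every `M > 1/3` a power-saving proportion does
(`AlmostAllPoints`). Here the exact exponent of the number of these exceptions is determined, for
points of all heights and `M` close to `1/3`, and for points of height at most `(2/5) log X` and all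
`M < 2/5`.

Upper bound: the gap principle for points in a cell (`Y180/LK`, `W108/AK`), and for the large heights
`AlmostAllPoints`. Lower bound: the points `(μ² κ : b : - μ² κ - b)`, `μ`, `κ`, `b` in boxes; those
with large common factors are few by the upper bound.
-/

set_option autoImplicit false

namespace Pool.Agent.Results.MP_a793bb_nt.ExceptionExponent

open NumberField IsDedekindDomain Filter Topology

variable {K : Type} [Field K] [NumberField K]

/-- the height `h(P)` of the point `P` with coordinates `x` -/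
noncomputable def height (x : Fin 3 → K) : ℝ :=
  (∑ w : InfinitePlace K, (w.mult : ℝ) * Real.log (max (w (x 0)) (max (w (x 1)) (w (x 2)))) +
    ∑ᶠ v : HeightOneSpectrum (𝓞 K), Real.log
      (max (FinitePlace.mk v (x 0)) (max (FinitePlace.mk v (x 1)) (FinitePlace.mk v (x 2))))) /
    (Module.finrank ℚ K : ℝ)

/-- the radical of the point `P` with coordinates `x`, without the primes of `T`: the sum of
`log N(v) / d` over the primes `v ∉ T` at which the valuations of the coordinates are not all
equal -/
noncomputable def rad (T : Set (HeightOneSpectrum (𝓞 K))) (x : Fin 3 → K) : ℝ :=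
  (∑ᶠ (v : HeightOneSpectrum (𝓞 K)) (_ : v ∉ T ∧
      ¬ (FinitePlace.mk v (x 0) = FinitePlace.mk v (x 1) ∧
        FinitePlace.mk v (x 1) = FinitePlace.mk v (x 2))),
    Real.log (Ideal.absNorm v.asIdeal : ℝ)) / (Module.finrank ℚ K : ℝ)

/-- the points `P = (a : b : c)` over `K` with `a + b + c = 0`, `abc ≠ 0`, `exp rad_T(P) ≤ X` and
`h(P) ≥ M rad_T(P)`, that is, those violating `h(P) < M rad_T(P)`; there is no other condition on
the height of `P` -/
def Exceptions (T : Set (HeightOneSpectrum (𝓞 K))) (M X : ℝ) :
    Set (Projectivization K (Fin 3 → K)) :=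
  {P | ∃ (x : Fin 3 → K) (hx : x ≠ 0), P = Projectivization.mk K x hx ∧ x 0 + x 1 + x 2 = 0 ∧
    x 0 * x 1 * x 2 ≠ 0 ∧ Real.exp (rad T x) ≤ X ∧ M * rad T x ≤ height x}

/-- those among them of height at most `(2/5) log X` -/
def SmallExceptions (T : Set (HeightOneSpectrum (𝓞 K))) (M X : ℝ) :
    Set (Projectivization K (Fin 3 → K)) :=
  {P | ∃ (x : Fin 3 → K) (hx : x ≠ 0), P = Projectivization.mk K x hx ∧ x 0 + x 1 + x 2 = 0 ∧
    x 0 * x 1 * x 2 ≠ 0 ∧ Real.exp (rad T x) ≤ X ∧ M * rad T x ≤ height x ∧
    height x ≤ 2 / 5 * Real.log X}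

/-- **The exact size of the exceptional set.**
(1) For every number field `K` of degree `d` there is `M₀ > 1/3` such that for every finite set `T`
of primes of `K` and every real `M ≤ M₀` the number of all points `P = (a : b : c)` over `K`, of
whatever height, with `a + b + c = 0`, `abc ≠ 0`, `exp rad_T(P) ≤ X` and `h(P) ≥ M rad_T(P)` is
finite for all `X` and equal to `X ^ (d min(2/3, 1 - M) + o(1))` for `X → ∞`.
(2) For all `1/3 < M < 2/5` the number of those of height at most `(2/5) log X` is
`X ^ (d (1 - M) + o(1))`. -/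
theorem result : ∀ (K : Type) [Field K] [NumberField K],
    (∃ M₀ : ℝ, 1 / 3 < M₀ ∧ ∀ T : Set (HeightOneSpectrum (𝓞 K)), T.Finite → ∀ M : ℝ, M ≤ M₀ →
      (∀ X : ℝ, (Exceptions T M X).Finite) ∧
      Tendsto (fun X : ℝ => Real.log ((Exceptions T M X).ncard : ℝ) / Real.log X) atTop
        (𝓝 ((Module.finrank ℚ K : ℝ) * min (2 / 3) (1 - M)))) ∧
    ∀ T : Set (HeightOneSpectrum (𝓞 K)), T.Finite → ∀ M : ℝ, 1 / 3 < M → M < 2 / 5 →
      Tendsto (fun X : ℝ => Real.log ((SmallExceptions T M X).ncard : ℝ) / Real.log X) atTop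
        (𝓝 ((Module.finrank ℚ K : ℝ) * (1 - M))) := by
  intro K _ _
  refine ⟨?_, fun T hT M hM1 hM2 => Pool.Agent.Y668.EX.mainS K T hT hM1 hM2⟩
  obtain ⟨M₀, hM₀, h⟩ := Pool.Agent.Y668.EX.mainT K
  exact ⟨M₀, hM₀, fun T hT M hM => ⟨fun X => Pool.Agent.Y668.EX.finite_exc T hT M X, h T hT M hM⟩⟩

end Pool.Agent.Results.MP_a793bb_nt.ExceptionExponent
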