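import Mathlib
import Pool.Agent.Y724.T4.ABK

set_option autoImplicit false

/-!
# The abc inequality at the sparse points over all number fields of bounded degree, with any sparse
multiple of the radical

Let `S` be a finite set of primes. Let `K` be a number field with a basis `ω` whose structure constants
are, together with the coordinates of all numbers involved, short sums of `S`-units with small
coefficients. We prove `h(P) ≤ (1 + ε) (N_S(ρ) + d_S(ω)) + C` for the points `P = (a 0 : a 1 : a 2)` with
`a 0 + a 1 + a 2 = 0` and all multiples `ρ` of the radical of `P` (`ρ ^ m` is divisible by all quotients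
`a i / a j`), `N_S(ρ)` the logarithm of the norm of the part of `ρ` prime to `S`, with one constant `C`
for all `K` of degree at most `r` and all orders `ω`. If `ω` is a basis of the `S`-integers of `K` and
`ρ` a radical, this gives the abc inequality `h(P) ≤ (1 + ε) (rad_S(P) + d(K)) + C`.
-/

namespace Pool.Agent.Results.MP_a793bb_nt.SparsePoints

open MvPolynomial NumberField

/-! ### Height, radical, counting function, discriminants -/

section field
variable {K : Type} [Field K] [NumberField K]

/-- The height `h(P)` of the point `P` with the coordinates `a`. -/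
noncomputable def h (a : Fin 3 → K) : ℝ :=
  Height.logHeight a / Module.finrank ℚ K

variable (K) in
/-- the finite places of `K` over the primes in `S` -/
def placesOver (S : Finset ℕ) : Set (FinitePlace K) :=
  {v | ∃ p ∈ S, v (p : K) < 1}

/-- The part `rad_S(P)` of `rad(P)` prime to `S`: the sum of `log #(𝓞 / 𝔭)` over the primes `𝔭` not over
`S` at which at least two of the `|a i|` differ, divided by the degree. For `S = ∅` it is `rad(P)`. -/
noncomputable def rad (S : Finset ℕ) (a : Fin 3 → K) : ℝ :=
  (∑ᶠ v ∈ {v : FinitePlace K | v ∉ placesOver K S ∧ ∃ i j, v (a i) ≠ v (a j)},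
    Real.log ((Ideal.absNorm v.maximalIdeal.asIdeal : ℕ) : ℝ)) / Module.finrank ℚ K

/-- The counting function `N_S(ρ)` of the zeros of the `S`-integral number `ρ` outside `S`: minus the
sum of `log |ρ|_v` over the finite places not over `S`, divided by the degree (the logarithm of the
norm of the part of `ρ` prime to `S`, divided by the degree). -/
noncomputable def counting (S : Finset ℕ) (ρ : K) : ℝ :=
  (-∑ᶠ v ∈ (placesOver K S)ᶜ, Real.log (v ρ)) / Module.finrank ℚ K

variable (K) in
/-- the logarithmic discriminant `d(K)` -/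
noncomputable def logDisc : ℝ :=
  Real.log |((NumberField.discr K : ℤ) : ℝ)| / Module.finrank ℚ K

/-- The logarithmic discriminant of the basis `ω`, without the primes in `S`: `1 / [K : ℚ]` times the
logarithm of the part prime to `S` of the discriminant of `ω`. -/
noncomputable def logDiscBasis {n : ℕ} (S : Finset ℕ) (ω : Module.Basis (Fin n) ℚ K) : ℝ :=
  (Real.log |((Algebra.discr ℚ ω : ℚ) : ℝ)| +
    ∑ p ∈ S, Real.log ((padicNorm p (Algebra.discr ℚ ω) : ℚ) : ℝ)) / Module.finrank ℚ K

/-- `ρ` is a radical of the point `P` outside `S`: at the places not over `S` it has at most simple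
zeros (Mathlib's `v ρ` is `#(𝓞 / 𝔭) ^ (- ord ρ)`), and only where at least two of the `|a i|`
differ. -/
def IsRadical (S : Finset ℕ) (a : Fin 3 → K) (ρ : K) : Prop :=
  ∀ v : FinitePlace K, v ∉ placesOver K S → v ρ < 1 →
    ((Ideal.absNorm v.maximalIdeal.asIdeal : ℕ) : ℝ)⁻¹ ≤ v ρ ∧ ∃ i j, v (a i) ≠ v (a j)

/-- The parameters of the elements `y k` of the number field with the basis `ω`: the structure
constants of `ω` (the coordinates of the products `ω i * ω j`) and the coordinates of the `y k` in the
basis. -/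
noncomputable def params {n : ℕ} {κ : Type} (ω : Module.Basis (Fin n) ℚ K) (y : κ → K) :
    (Fin n × Fin n × Fin n) ⊕ (κ × Fin n) → ℚ :=
  Sum.elim (fun t => ω.repr (ω t.1 * ω t.2.1) t.2.2) (fun t => ω.repr (y t.1) t.2)

/-- the numbers `a i`, `t i j` and `ρ` -/
def data (a : Fin 3 → K) (t : Fin 3 → Fin 3 → K) (ρ : K) : Fin 3 ⊕ (Fin 3 × Fin 3) ⊕ Unit → K :=
  Sum.elim a (Sum.elim (fun k => t k.1 k.2) (fun _ => ρ))

/-- All algebraic integers of `K` are combinations of the `ω i` with `S`-integral coefficients. If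
the structure constants of `ω` are `S`-integral as well, then `ω` is a basis over `ℤ_S` of the ring
of `S`-integers of `K`. -/
def SpansIntegers {n : ℕ} (S : Finset ℕ) (ω : Module.Basis (Fin n) ℚ K) : Prop :=
  ∀ (y : 𝓞 K) (i : Fin n) (p : ℕ), p.Prime → p ∣ (ω.repr (y : K) i).den → p ∈ S

end field

/-! ### Short sums of `S`-units -/

/-- `u` is an `S`-unit: plus or minus a product of powers (with integer exponents) of the primes in
`S` -/
def IsSUnit (S : Finset ℕ) (u : ℚ) : Prop :=
  ∃ (σ : ℤ) (e : ℕ → ℤ), (σ = 1 ∨ σ = -1) ∧ u = σ * ∏ p ∈ S, (p : ℚ) ^ e p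

/-- the maximum of the absolute values of the numerators and denominators of the `z i` -/
def size {ι : Type} [Fintype ι] (z : ι → ℚ) : ℕ :=
  Finset.univ.sup (fun i => max (z i).num.natAbs (z i).den)

/-- The rational vector `z` is a sum of `l` integer vectors with entries of absolute value at most
`B * H ^ δ`, `H` the size of `z`, multiplied by `S`-units. -/
def IsShortSum {ι : Type} [Fintype ι] (S : Finset ℕ) (l : ℕ) (B δ : ℝ) (z : ι → ℚ) : Prop :=
  ∃ (u : Fin l → ℚ) (m : Fin l → ι → ℤ), (∀ j, IsSUnit S (u j)) ∧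
    (∀ j i, |(m j i : ℝ)| ≤ B * (size z : ℝ) ^ δ) ∧ ∀ i, z i = ∑ j, u j * m j i

/-- The point `P` with the coordinates `a`, the number `ρ ≠ 0` and the cofactors `t i j` with
`ρ ^ m * a j = a i * t i j` are sparse with respect to the basis `ω`: the structure constants of `ω` and
the coordinates of the `a i`, `t i j` and `ρ` with respect to `ω` together form a sum of `l` integer
vectors with entries of absolute value at most `B H ^ δ` multiplied by `S`-units, `H` their size, and
`log H ≤ A (h(P) + 1)`. (The `t i j` are then `S`-integral, so that `ρ` vanishes at all places not over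
`S` at which two of the `|a i|` differ: `ρ` is a multiple of the radical of `P` outside `S`.) -/
def IsSparse {K : Type} [Field K] [NumberField K] {n : ℕ} (S : Finset ℕ) (l m : ℕ)
    (A B δ : ℝ) (ω : Module.Basis (Fin n) ℚ K) (a : Fin 3 → K) (t : Fin 3 → Fin 3 → K) (ρ : K) :
    Prop :=
  ρ ≠ 0 ∧ (∀ i j, ρ ^ m * a j = a i * t i j) ∧ IsShortSum S l B δ (params ω (data a t ρ)) ∧
    Real.log (size (params ω (data a t ρ))) ≤ A * (h a + 1)

/-- **Main theorem.** For all finite sets `S` of primes, all natural numbers `r`, `l`, `m` and all real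
numbers `A`, `B` and `ε > 0` there are `δ > 0` and a constant `C` such that for all number fields `K` of
degree `n ≤ r`, all bases `ω` of `K` and all sparse points `P = (a 0 : a 1 : a 2)` over `K` with
`a 0 + a 1 + a 2 = 0`, `a 0 a 1 a 2 ≠ 0` (with `ρ` and `t`):
* `h(P) ≤ (1 + ε) (N_S(ρ) + d_S(ω)) + C`;
* if `ω` is a basis of the `S`-integers of `K` and `ρ` is a radical of `P` outside `S`, then
  `h(P) ≤ (1 + ε) (rad_S(P) + d(K)) + C`. -/
theorem result (S : Finset ℕ) (hS : ∀ p ∈ S, p.Prime) (r l m : ℕ) (A B ε : ℝ) (hε : 0 < ε) :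
    ∃ (δ C : ℝ), 0 < δ ∧ ∀ (n : ℕ), n ≤ r → ∀ (K : Type) [Field K] [NumberField K]
      (ω : Module.Basis (Fin n) ℚ K) (a : Fin 3 → K) (t : Fin 3 → Fin 3 → K) (ρ : K),
      (∀ i, a i ≠ 0) → a 0 + a 1 + a 2 = 0 → IsSparse S l m A B δ ω a t ρ →
      h a ≤ (1 + ε) * (counting S ρ + logDiscBasis S ω) + C ∧
      (SpansIntegers S ω → IsRadical S a ρ → h a ≤ (1 + ε) * (rad S a + logDisc K) + C) := by
  obtain ⟨δ, C, hδ, _, hmain⟩ := Pool.Agent.Y724.T4.abk_core S hS r l m A B ε hε
  refine ⟨δ, C, hδ, ?_⟩
  intro n hn K _ _ ω a t ρ ha hsum ⟨hρ0, ht, hshort, hlog⟩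
  obtain ⟨h1, h2⟩ := hmain n hn K ω a t ρ ha hsum hρ0 ht hshort hlog
  refine ⟨h1, fun hspan hrad => ?_⟩
  have h3 := h2 hspan fun v hv hv1 => ⟨(hrad v hv hv1).1,
    (Pool.Agent.Y724.T4.line_meets a ha v).2 (hrad v hv hv1).2⟩
  have h4 : Pool.Agent.Y724.T4.R7.truncated Pool.Agent.Y724.T4.lineF (fun _ _ => 1) S a =
      rad S a := by
    unfold Pool.Agent.Y724.T4.R7.truncated rad
    have h5 : {v : FinitePlace K | v ∉ Pool.Agent.Y724.T4.R7.placesOver K S ∧
        ∃ i, 0 < Pool.Agent.Y724.T4.R7.localHeight (Pool.Agent.Y724.T4.lineF i) (fun _ => 1) a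
          v.1} = {v : FinitePlace K | v ∉ placesOver K S ∧ ∃ i j, v (a i) ≠ v (a j)} :=
      Set.ext fun v => and_congr_right fun _ => Pool.Agent.Y724.T4.line_meets a ha v
    rw [h5]
  rw [h4] at h3
  exact h3

end Pool.Agent.Results.MP_a793bb_nt.SparsePoints
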